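import Mathlib

/-!
Network constructions for finite sets in a metric space, used in `MP_9b2a83_an`.
-/

namespace Pool.Agent.Helper666.SG

open Finset

/-- The properties of a metric that are used. -/
structure MetricLike {P : Type} (δ : P → P → ℝ) : Prop where
  self : ∀ x, δ x x = 0
  symm : ∀ x y, δ x y = δ y x
  tri : ∀ x y z, δ x z ≤ δ x y + δ y z
  pos : ∀ x y, x ≠ y → 0 < δ x y

/-- `Path δ E u v L`: some path from `u` to `v` along pairs in `E` has total length `L`. -/
inductive Path {P : Type} (δ : P → P → ℝ) (E : Set (Sym2 P)) : P → P → ℝ → Prop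
  | nil (u : P) : Path δ E u u 0
  | cons {u v x : P} {L : ℝ} : s(u, v) ∈ E → Path δ E v x L → Path δ E u x (δ u v + L)

variable {P : Type} {δ : P → P → ℝ}

lemma Path.cast {E : Set (Sym2 P)} {u v : P} {L L' : ℝ} (h : Path δ E u v L) (e : L = L') :
    Path δ E u v L' := e ▸ h

lemma Path.mono {E F : Set (Sym2 P)} (hEF : E ⊆ F) {u v : P} {L : ℝ} (h : Path δ E u v L) :
    Path δ F u v L := by
  induction h with
  | nil u => exact Path.nil u
  | cons he _ ih => exact Path.cons (hEF he) ih

lemma Path.append {E : Set (Sym2 P)} {u v x : P} {L L' : ℝ} (h : Path δ E u v L)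
    (h' : Path δ E v x L') : Path δ E u x (L + L') := by
  induction h with
  | nil u => exact h'.cast (by ring)
  | cons he _ ih => exact (Path.cons he (ih h')).cast (by ring)

lemma Path.single {E : Set (Sym2 P)} {u v : P} (h : s(u, v) ∈ E) : Path δ E u v (δ u v) :=
  (Path.cons h (Path.nil v)).cast (by ring)

lemma Path.symm (hδ : MetricLike δ) {E : Set (Sym2 P)} {u v : P} {L : ℝ}
    (h : Path δ E u v L) : Path δ E v u L := by
  induction h with
  | nil u => exact Path.nil u
  | @cons u v x L he _ ih =>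
    have h1 : Path δ E v u (δ v u) := Path.single (by rw [Sym2.eq_swap]; exact he)
    exact (ih.append h1).cast (by rw [hδ.symm v u]; ring)

lemma Path.mem {E : Set (Sym2 P)} {u v : P} {L : ℝ} (h : Path δ E u v L) :
    v = u ∨ ∃ e ∈ E, v ∈ e := by
  induction h with
  | nil u => exact Or.inl rfl
  | @cons u v x L he _ ih =>
    rcases ih with h | h
    · right
      exact ⟨s(u, v), he, by rw [h]; exact Sym2.mem_mk_right u v⟩
    · exact Or.inr h

/-- The `ℓ₁` distance in the plane. -/
def d1 (p q : ℝ × ℝ) : ℝ := |p.1 - q.1| + |p.2 - q.2|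

lemma d1_metric : MetricLike d1 where
  self x := by simp [d1]
  symm x y := by simp only [d1]; rw [abs_sub_comm x.1, abs_sub_comm x.2]
  tri x y z := by
    simp only [d1]
    have h1 := abs_sub_le x.1 y.1 z.1
    have h2 := abs_sub_le x.2 y.2 z.2
    linarith
  pos x y h := by
    simp only [d1]
    have h1 := abs_nonneg (x.1 - y.1)
    have h2 := abs_nonneg (x.2 - y.2)
    by_contra hh
    have h3 : |x.1 - y.1| = 0 := by linarith
    have h4 : |x.2 - y.2| = 0 := by linarith
    rw [abs_eq_zero, sub_eq_zero] at h3 h4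
    exact h (Prod.ext h3 h4)

lemma line (μ : ℝ) (Y : Finset ℝ) : ∃ F : Finset (Sym2 (ℝ × ℝ)), F.card ≤ Y.card ∧
    ∀ y ∈ Y, ∀ y' ∈ Y, Path d1 (F : Set (Sym2 (ℝ × ℝ))) (μ, y) (μ, y') |y - y'| := by
  classical
  induction Y using Finset.induction_on_max with
  | empty => exact ⟨∅, by simp, by simp⟩
  | insert a Y hY ih =>
    obtain ⟨F, hF, hP⟩ := ih
    have haY : a ∉ Y := fun h => lt_irrefl _ (hY a h)
    rcases Y.eq_empty_or_nonempty with h | h
    · subst h
      refine ⟨∅, by simp, ?_⟩
      intro y hy y' hy'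
      simp only [insert_empty_eq, mem_singleton] at hy hy'
      subst hy; subst hy'
      exact (Path.nil _).cast (by simp)
    · obtain ⟨b, hb⟩ : ∃ b, b = Y.max' h := ⟨_, rfl⟩
      have hbY : b ∈ Y := by rw [hb]; exact Y.max'_mem h
      have hmax : ∀ y ∈ Y, y ≤ b := fun y hy => by rw [hb]; exact Y.le_max' y hy
      refine ⟨insert s((μ, b), (μ, a)) F, ?_, ?_⟩
      · rw [card_insert_of_notMem haY]
        exact (card_insert_le _ _).trans (by omega)
      · have hsub : (F : Set (Sym2 (ℝ × ℝ))) ⊆ ((insert s((μ, b), (μ, a)) F : Finset _) :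
            Set (Sym2 (ℝ × ℝ))) := by
          rw [coe_insert]; exact Set.subset_insert _ _
        have hstep : ∀ y ∈ Y, Path d1 ((insert s((μ, b), (μ, a)) F : Finset _) :
            Set (Sym2 (ℝ × ℝ))) (μ, y) (μ, a) |y - a| := by
          intro y hy
          have e1 := (hP y hy b hbY).mono hsub
          have e2 : Path d1 ((insert s((μ, b), (μ, a)) F : Finset _) :
            Set (Sym2 (ℝ × ℝ))) (μ, b) (μ, a) (d1 (μ, b) (μ, a)) :=
            Path.single (by rw [coe_insert]; exact Set.mem_insert _ _)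
          refine (e1.append e2).cast ?_
          have h1 := hmax y hy
          have h2 := hY b hbY
          simp only [d1]
          rw [abs_of_nonpos (by linarith), sub_self, abs_zero, abs_of_nonpos (by linarith),
            abs_of_nonpos (by linarith)]
          ring
        intro y hy y' hy'
        rw [mem_insert] at hy hy'
        rcases hy with hy | hy <;> rcases hy' with hy' | hy'
        · subst hy; subst hy'
          exact (Path.nil _).cast (by simp)
        · subst hy
          exact ((hstep y' hy').symm d1_metric).cast (abs_sub_comm _ _)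
        · subst hy'
          exact hstep y hy
        · exact (hP y hy y' hy').mono hsub

lemma split (S : Finset (ℝ × ℝ)) : ∀ a : ℕ, a ≤ S.card → ∃ L ⊆ S, L.card = a ∧
    ∃ μ : ℝ, (∀ p ∈ L, p.1 ≤ μ) ∧ ∀ p ∈ S \ L, μ ≤ p.1 := by
  classical
  intro a
  induction a with
  | zero =>
    intro _
    refine ⟨∅, by simp, by simp, ?_⟩
    rcases S.eq_empty_or_nonempty with h | h
    · exact ⟨0, by simp, by simp [h]⟩
    · obtain ⟨p, _, hp⟩ := S.exists_min_image (fun p => p.1) h
      exact ⟨p.1, by simp, fun q hq => hp q (by simpa using hq)⟩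
  | succ a ih =>
    intro ha
    obtain ⟨L, hL, hc, μ, h1, h2⟩ := ih (by omega)
    have hne : (S \ L).Nonempty := by
      rw [← card_pos, card_sdiff_of_subset hL]
      omega
    obtain ⟨p, hp, hmin⟩ := (S \ L).exists_min_image (fun p => p.1) hne
    have hpL : p ∉ L := (mem_sdiff.1 hp).2
    refine ⟨insert p L, ?_, ?_, p.1, ?_, ?_⟩
    · exact insert_subset (mem_sdiff.1 hp).1 hL
    · rw [card_insert_of_notMem hpL, hc]
    · intro q hq
      rw [mem_insert] at hq
      rcases hq with rfl | hq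
      · exact le_rfl
      · exact (h1 q hq).trans (h2 p hp)
    · intro q hq
      rw [mem_sdiff, mem_insert, not_or] at hq
      exact hmin q (mem_sdiff.2 ⟨hq.1, hq.2.2⟩)

/-- A network with `2 n m` edges for `n ≤ 2^m` points of the plane with the `ℓ₁` distance. -/
lemma net : ∀ (m : ℕ) (M : Finset (ℝ × ℝ)), M.card ≤ 2 ^ m →
    ∃ E : Finset (Sym2 (ℝ × ℝ)), E.card ≤ 2 * M.card * m ∧
      ∀ p ∈ M, ∀ q ∈ M, Path d1 (E : Set (Sym2 (ℝ × ℝ))) p q (d1 p q) := by
  classical
  intro m
  induction m with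
  | zero =>
    intro M hM
    refine ⟨∅, by simp, ?_⟩
    intro p hp q hq
    have : p = q := card_le_one.1 (by simpa using hM) p hp q hq
    subst this
    exact (Path.nil p).cast (by rw [d1_metric.self])
  | succ m ih =>
    intro M hM
    obtain ⟨L, hLM, hLc, μ, h1, h2⟩ := split M (M.card / 2) (Nat.div_le_self _ _)
    have hRc : (M \ L).card = M.card - M.card / 2 := by
      rw [card_sdiff_of_subset hLM, hLc]
    rw [pow_succ] at hM
    obtain ⟨E1, c1, p1⟩ := ih L (by omega)
    obtain ⟨E2, c2, p2⟩ := ih (M \ L) (by omega)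
    obtain ⟨F, cF, pF⟩ := line μ (M.image Prod.snd)
    obtain ⟨S, hS⟩ : ∃ S : Finset (Sym2 (ℝ × ℝ)), S = M.image fun p => s(p, (μ, p.2)) := ⟨_, rfl⟩
    have cS : S.card ≤ M.card := by rw [hS]; exact card_image_le
    have cF' : F.card ≤ M.card := cF.trans card_image_le
    obtain ⟨E, hE⟩ : ∃ E : Finset (Sym2 (ℝ × ℝ)), E = E1 ∪ E2 ∪ (F ∪ S) := ⟨_, rfl⟩
    have sub1 : (E1 : Set (Sym2 (ℝ × ℝ))) ⊆ E := by
      intro x hx
      rw [mem_coe] at hx ⊢
      rw [hE, mem_union, mem_union]; exact Or.inl (Or.inl hx)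
    have sub2 : (E2 : Set (Sym2 (ℝ × ℝ))) ⊆ E := by
      intro x hx
      rw [mem_coe] at hx ⊢
      rw [hE, mem_union, mem_union]; exact Or.inl (Or.inr hx)
    have sub3 : (F : Set (Sym2 (ℝ × ℝ))) ⊆ E := by
      intro x hx
      rw [mem_coe] at hx ⊢
      rw [hE, mem_union, mem_union (t := S)]; exact Or.inr (Or.inl hx)
    have sub4 : ∀ p ∈ M, s(p, ((μ, p.2) : ℝ × ℝ)) ∈ (E : Set (Sym2 (ℝ × ℝ))) := by
      intro p hp
      rw [mem_coe, hE, mem_union, mem_union (t := S)]
      refine Or.inr (Or.inr ?_)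
      rw [hS]
      exact mem_image_of_mem (fun p : ℝ × ℝ => s(p, ((μ, p.2) : ℝ × ℝ))) hp
    have cross : ∀ p ∈ L, ∀ q ∈ M \ L, Path d1 (E : Set (Sym2 (ℝ × ℝ))) p q (d1 p q) := by
      intro p hp q hq
      have hpM := hLM hp
      have hqM := (mem_sdiff.1 hq).1
      have s1 : Path d1 (E : Set (Sym2 (ℝ × ℝ))) p (μ, p.2) (d1 p (μ, p.2)) :=
        Path.single (sub4 p hpM)
      have s2 := (pF p.2 (mem_image_of_mem _ hpM) q.2 (mem_image_of_mem _ hqM)).mono sub3
      have s3 : Path d1 (E : Set (Sym2 (ℝ × ℝ))) q (μ, q.2) (d1 q (μ, q.2)) :=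
        Path.single (sub4 q hqM)
      refine ((s1.append s2).append (s3.symm d1_metric)).cast ?_
      have a1 := h1 p hp
      have a2 := h2 q hq
      simp only [d1]
      rw [abs_of_nonpos (by linarith : p.1 - μ ≤ 0), sub_self, abs_zero,
        abs_of_nonneg (by linarith : 0 ≤ q.1 - μ), sub_self, abs_zero,
        abs_of_nonpos (by linarith : p.1 - q.1 ≤ 0)]
      ring
    refine ⟨E, ?_, ?_⟩
    · have u1 : E.card ≤ (E1 ∪ E2).card + (F ∪ S).card := by rw [hE]; exact card_union_le _ _
      have u2 := card_union_le E1 E2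
      have u3 := card_union_le F S
      have u4 : L.card + (M \ L).card = M.card := by rw [hLc, hRc]; omega
      have u5 : 2 * L.card * m + 2 * (M \ L).card * m = 2 * M.card * m := by
        rw [← u4]; ring
      have u6 : 2 * M.card * (m + 1) = 2 * M.card * m + 2 * M.card := by ring
      rw [u6]
      omega
    · intro p hp q hq
      by_cases hpL : p ∈ L <;> by_cases hqL : q ∈ L
      · exact (p1 p hpL q hqL).mono sub1
      · exact cross p hpL q (mem_sdiff.2 ⟨hq, hqL⟩)
      · exact ((cross q hqL p (mem_sdiff.2 ⟨hp, hpL⟩)).symm d1_metric).cast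
          (d1_metric.symm q p)
      · exact (p2 p (mem_sdiff.2 ⟨hp, hpL⟩) q (mem_sdiff.2 ⟨hq, hqL⟩)).mono sub2

end Pool.Agent.Helper666.SG
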